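import Mathlib
import Pool.Agent.Q217.MZ.Double

/-!
# Relations between double zeta values of the same weight: no relation of a fixed shape, and heights

Let `k = K n + L`. We consider the double zeta values `ζ(s, k - s)` of weight `k` whose first argument has one of finitely
many shapes `s = a n + b` (`a = 0`: a constant first argument such as `ζ(3, k - 3)`, `a = K`: a constant second argument
such as `ζ(k - 1, 1)`, or both arguments growing, such as `ζ(k/2, k/2)`), together with `ζ(k)`.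

1. For arbitrary real coefficients, fixed and not all zero, the combination is larger than `N ^ (-n)` in absolute value for
all large `n`; the base `N` only depends on the shapes.
2. The same is true for all integer coefficients of absolute value at most `H` and `n ≥ n0(H)`.
3. In particular: for all `D` and `H` there is `m0` such that for every even weight `k = 2 m`, `m ≥ m0`, the space `R_k` of
the relations between the numbers `ζ(2 a + 1, k - 2 a - 1)`, `1 ≤ a < k/2`, contains no nonzero integral vector of height at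
most `H` which is supported on the first `D` and the last `D` indices `a`. (The dimension of the space of cusp forms, so
the number of relations, tends to infinity with `k`.)

The starting file `AllWeights` of this folder (subspace theorem) treats first arguments `≥ n` only, with coefficients up to
`C ^ n`; here the first argument may be constant. The proof writes `ζ(s, t) = ζ(s) ζ(t) - ζ(t, s) - ζ(s + t)` and uses
that the word functions of the starting library (`Pool.Agent.TH507.WG`) are linearly independent over the real numbers.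
-/

set_option autoImplicit false

namespace Pool.Agent.Results.MP_9206b6_nt.AllShapes

open Finset

/-- the double zeta value `ζ(s, t)`, the sum of `l ^ (-s) m ^ (-t)` over `l > m ≥ 1` -/
noncomputable def doubleZeta (s t : ℕ) : ℝ :=
  ∑' l : ℕ, (∑ m ∈ Finset.Ico 1 (l + 1), 1 / (m : ℝ) ^ t) / ((l + 1 : ℕ) : ℝ) ^ s

/-- the zeta value `ζ(k)` -/
noncomputable def singleZeta (k : ℕ) : ℝ := ∑' l : ℕ, 1 / ((l + 1 : ℕ) : ℝ) ^ k

/-- the shape `(a, b)`: the first argument is `a n + b`, the second one `(K n + L) - (a n + b)`; a constant first argument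
is at least two, a constant second argument is at least one -/
def Shape (K L : ℕ) (p : ℕ × ℕ) : Prop := p.1 ≤ K ∧ p.2 ≤ L ∧ (p.1 = 0 → 2 ≤ p.2) ∧ (p.1 = K → p.2 < L)

/-- the combination `∑ x p ζ(a n + b, k - (a n + b)) + y ζ(k)`, the sum over the shapes `p = (a, b)` in `S`, `k = K n + L` -/
noncomputable def combination (K L : ℕ) (S : Finset (ℕ × ℕ)) (x : ℕ × ℕ → ℝ) (y : ℝ) (n : ℕ) : ℝ :=
  ∑ p ∈ S, x p * doubleZeta (p.1 * n + p.2) ((K * n + L) - (p.1 * n + p.2)) + y * singleZeta (K * n + L)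

open Pool.Agent.TH507.WD (mz hr_cons hr_nil) in
lemma mz_two (s t : ℕ) : mz [s, t] = doubleZeta s t := by
  rw [mz, doubleZeta]
  refine tsum_congr fun l => ?_
  rw [hr_cons]
  simp only [hr_nil]

open Pool.Agent.TH507.WD (mz hr_cons hr_nil) in
lemma mz_one (s : ℕ) : mz [s] = singleZeta s := by
  rw [mz, singleZeta]
  refine tsum_congr fun l => ?_
  rw [hr_nil]

theorem part_one {K L : ℕ} (hK : 1 ≤ K) (S : Finset (ℕ × ℕ)) (hS : ∀ p ∈ S, Shape K L p) :
    ∃ N : ℕ, 1 ≤ N ∧ ∀ (x : ℕ × ℕ → ℝ) (y : ℝ), ((∃ p ∈ S, x p ≠ 0) ∨ y ≠ 0) → ∃ n0 : ℕ, ∀ n, n0 ≤ n →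
      ((N : ℝ) ^ n)⁻¹ < |combination K L S x y n| := by
  obtain ⟨N, hN, h⟩ := Pool.Agent.Q217.MZ.shapes hK S hS
  refine ⟨N, hN, fun x y hxy => ?_⟩
  obtain ⟨n0, h⟩ := h x y hxy
  refine ⟨n0, fun n hn => ?_⟩
  have h1 := h n hn
  simp only [mz_two, mz_one] at h1
  exact h1

/-- both statements with the same base -/
theorem parts {K L : ℕ} (hK : 1 ≤ K) (S : Finset (ℕ × ℕ)) (hS : ∀ p ∈ S, Shape K L p) :
    ∃ N : ℕ, 1 ≤ N ∧
      (∀ (x : ℕ × ℕ → ℝ) (y : ℝ), ((∃ p ∈ S, x p ≠ 0) ∨ y ≠ 0) → ∃ n0 : ℕ, ∀ n, n0 ≤ n →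
        ((N : ℝ) ^ n)⁻¹ < |combination K L S x y n|) ∧
      ∀ H : ℕ, ∃ n0 : ℕ, ∀ n, n0 ≤ n → ∀ (c : ℕ × ℕ → ℤ) (d : ℤ), (∀ p ∈ S, |c p| ≤ H) → |d| ≤ H →
        ((∃ p ∈ S, c p ≠ 0) ∨ d ≠ 0) →
        ((N : ℝ) ^ n)⁻¹ < |combination K L S (fun p => (c p : ℝ)) d n| := by
  classical
  obtain ⟨N, hN, h⟩ := part_one hK S hS
  refine ⟨N, hN, h, fun H => ?_⟩
  have hfin : Set.Finite {c : S → ℤ | ∀ p, |c p| ≤ H} :=
    (Set.Finite.pi' fun _ => Set.finite_Icc (-(H : ℤ)) H).subset fun c hc p => abs_le.1 (hc p)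
  have hfin2 : Set.Finite {d : ℤ | |d| ≤ H} := (Set.finite_Icc (-(H : ℤ)) H).subset fun d hd => abs_le.1 hd
  have hone : ∀ q : (S → ℤ) × ℤ, ∃ n0 : ℕ, ((∃ p, q.1 p ≠ 0) ∨ q.2 ≠ 0) → ∀ n, n0 ≤ n →
      ((N : ℝ) ^ n)⁻¹ < |combination K L S (fun p => if hp : p ∈ S then (q.1 ⟨p, hp⟩ : ℝ) else 0) q.2 n| := by
    intro q
    by_cases hq : (∃ p, q.1 p ≠ 0) ∨ q.2 ≠ 0
    · obtain ⟨n0, h0⟩ := h (fun p => if hp : p ∈ S then (q.1 ⟨p, hp⟩ : ℝ) else 0) q.2 (by
        rcases hq with ⟨p, hp⟩ | hq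
        · left
          refine ⟨p.1, p.2, ?_⟩
          rw [dif_pos p.2]
          exact_mod_cast hp
        · right
          exact_mod_cast hq)
      exact ⟨n0, fun _ => h0⟩
    · exact ⟨0, fun hh => absurd hh hq⟩
  choose n0 hn0 using hone
  obtain ⟨n1, hn1⟩ := ((hfin.prod hfin2).image n0).bddAbove
  refine ⟨n1, fun n hn c d hc hd hne => ?_⟩
  have h1 := hn0 (fun p => c p.1, d) (by
    rcases hne with ⟨p, hp, hcp⟩ | hd0
    · exact Or.inl ⟨⟨p, hp⟩, hcp⟩
    · exact Or.inr hd0) n ((hn1 ⟨(fun p => c p.1, d), ⟨fun p => hc p.1 p.2, hd⟩, rfl⟩).trans hn)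
  refine lt_of_lt_of_eq h1 ?_
  congr 1
  unfold combination
  congr 1
  refine sum_congr rfl fun p hp => ?_
  beta_reduce
  rw [dif_pos hp]

/-- relations between the values with odd arguments -/
theorem odd_relations (D H : ℕ) : ∃ m0 : ℕ, ∀ m, m0 ≤ m → ∀ c : ℕ → ℤ, (∀ a ∈ Ico 1 m, |c a| ≤ H) →
    (∀ a ∈ Ico 1 m, D < a → a < m - D → c a = 0) →
    ∑ a ∈ Ico 1 m, (c a : ℝ) * doubleZeta (2 * a + 1) (2 * m - (2 * a + 1)) = 0 → ∀ a ∈ Ico 1 m, c a = 0 := by
  classical
  set L : ℕ := 2 * D + 2 with hL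
  set S0 : Finset (ℕ × ℕ) := (Icc 1 D).image fun a => (0, 2 * a + 1) with hS0
  set S2 : Finset (ℕ × ℕ) := (Icc 1 D).image fun b => (2, 2 * D + 3 - 2 * b) with hS2
  have hS : ∀ p ∈ S0 ∪ S2, Shape 2 L p := by
    intro p hp
    rw [mem_union, hS0, hS2, mem_image, mem_image] at hp
    rcases hp with ⟨a, ha, rfl⟩ | ⟨b, hb, rfl⟩
    · rw [mem_Icc] at ha
      refine ⟨by simp, by simp only; omega, fun _ => by simp only; omega, fun h => by simp at h⟩
    · rw [mem_Icc] at hb
      refine ⟨by simp, by simp only; omega, fun h => by simp at h, fun _ => by simp only; omega⟩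
  obtain ⟨N, hN, -, h⟩ := parts (K := 2) (L := L) (by norm_num) (S0 ∪ S2) hS
  obtain ⟨n0, hn0⟩ := h H
  refine ⟨n0 + 2 * D + 2, fun m hm c hc hsupp h0 => ?_⟩
  set n : ℕ := m - D - 1 with hn
  have hk : 2 * n + L = 2 * m := by omega
  set x : ℕ × ℕ → ℤ := fun p => if p.1 = 0 then c ((p.2 - 1) / 2) else c (m - (2 * D + 3 - p.2) / 2) with hx
  have hdisj : Disjoint S0 S2 := by
    rw [disjoint_left]
    intro p hp hp'
    rw [hS0, mem_image] at hp
    rw [hS2, mem_image] at hp'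
    obtain ⟨a, _, rfl⟩ := hp
    obtain ⟨b, _, hb⟩ := hp'
    simp at hb
  have hx0 : ∀ a ∈ Icc 1 D, x (0, 2 * a + 1) = c a := by
    intro a ha
    simp only [hx, if_true]
    congr 1
    omega
  have hx2 : ∀ b ∈ Icc 1 D, x (2, 2 * D + 3 - 2 * b) = c (m - b) := by
    intro b hb
    rw [mem_Icc] at hb
    simp only [hx]
    rw [if_neg (by norm_num)]
    congr 2
    omega
  have hcomb : combination 2 L (S0 ∪ S2) (fun p => (x p : ℝ)) ((0 : ℤ) : ℝ) n = 0 := by
    unfold combination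
    rw [Int.cast_zero, zero_mul, add_zero, sum_union hdisj, hS0, hS2, sum_image, sum_image, ← h0]
    · have e0 : ∑ a ∈ Icc 1 D, (x (0, 2 * a + 1) : ℝ) * doubleZeta ((0, 2 * a + 1).1 * n + (0, 2 * a + 1).2)
          (2 * n + L - ((0, 2 * a + 1).1 * n + (0, 2 * a + 1).2)) =
          ∑ a ∈ Icc 1 D, (c a : ℝ) * doubleZeta (2 * a + 1) (2 * m - (2 * a + 1)) := by
        refine sum_congr rfl fun a ha => ?_
        rw [hx0 a ha, hk]
        simp only [zero_mul, zero_add]
      have e2 : ∑ b ∈ Icc 1 D, (x (2, 2 * D + 3 - 2 * b) : ℝ) * doubleZeta ((2, 2 * D + 3 - 2 * b).1 * n +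
          (2, 2 * D + 3 - 2 * b).2) (2 * n + L - ((2, 2 * D + 3 - 2 * b).1 * n + (2, 2 * D + 3 - 2 * b).2)) =
          ∑ a ∈ Ico (m - D) m, (c a : ℝ) * doubleZeta (2 * a + 1) (2 * m - (2 * a + 1)) := by
        refine sum_nbij' (fun b => m - b) (fun a => m - a) ?_ ?_ ?_ ?_ ?_
        · intro b hb
          rw [mem_Icc] at hb
          rw [mem_Ico]
          omega
        · intro a ha
          rw [mem_Ico] at ha
          rw [mem_Icc]
          omega
        · intro b hb
          rw [mem_Icc] at hb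
          show m - (m - b) = b
          omega
        · intro a ha
          rw [mem_Ico] at ha
          show m - (m - a) = a
          omega
        · intro b hb
          have hb' := mem_Icc.1 hb
          rw [hx2 b hb, hk]
          have e3 : (2, 2 * D + 3 - 2 * b).1 * n + (2, 2 * D + 3 - 2 * b).2 = 2 * (m - b) + 1 := by
            simp only
            omega
          rw [e3]
      rw [e0, e2]
      have e4 : Ico 1 m = (Icc 1 D ∪ Ico (m - D) m) ∪ Ico (D + 1) (m - D) := by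
        ext a
        simp only [mem_union, mem_Ico, mem_Icc]
        omega
      rw [e4, sum_union, sum_union]
      · rw [left_eq_add]
        refine sum_eq_zero fun a ha => ?_
        rw [mem_Ico] at ha
        rw [hsupp a (mem_Ico.2 ⟨by omega, by omega⟩) (by omega) (by omega), Int.cast_zero, zero_mul]
      · rw [disjoint_left]
        intro a ha ha'
        rw [mem_Icc] at ha
        rw [mem_Ico] at ha'
        omega
      · rw [disjoint_left]
        intro a ha ha'
        rw [mem_union, mem_Icc, mem_Ico] at ha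
        rw [mem_Ico] at ha'
        omega
    · intro b hb b' hb' hbb
      rw [Finset.mem_coe, mem_Icc] at hb hb'
      simp only [Prod.mk.injEq, true_and] at hbb
      omega
    · intro b hb b' hb' hbb
      simp only [Prod.mk.injEq, true_and] at hbb
      omega
  intro a ha
  by_contra hca
  have hane := mem_Ico.1 ha
  have hpos := hn0 n (by omega) x 0 (by
    intro p hp
    rw [mem_union, hS0, hS2, mem_image, mem_image] at hp
    rcases hp with ⟨a, ha, rfl⟩ | ⟨b, hb, rfl⟩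
    · rw [hx0 a ha]
      rw [mem_Icc] at ha
      exact hc a (mem_Ico.2 ⟨by omega, by omega⟩)
    · rw [hx2 b hb]
      rw [mem_Icc] at hb
      exact hc _ (mem_Ico.2 ⟨by omega, by omega⟩)) (by simp) (by
    left
    rcases Nat.lt_or_ge D a with h1 | h1
    · have h2 : m - D ≤ a := by
        by_contra h2
        exact hca (hsupp a ha h1 (by omega))
      refine ⟨(2, 2 * D + 3 - 2 * (m - a)), mem_union_right _ (mem_image_of_mem _ (mem_Icc.2 ⟨by omega, by omega⟩)), ?_⟩
      rw [hx2 (m - a) (mem_Icc.2 ⟨by omega, by omega⟩)]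
      have : m - (m - a) = a := by omega
      rw [this]
      exact hca
    · refine ⟨(0, 2 * a + 1), mem_union_left _ (mem_image_of_mem _ (mem_Icc.2 ⟨by omega, h1⟩)), ?_⟩
      rw [hx0 a (mem_Icc.2 ⟨by omega, h1⟩)]
      exact hca)
  rw [hcomb, abs_zero] at hpos
  have hN0 : (0 : ℝ) < N := by exact_mod_cast hN
  have : 0 < ((N : ℝ) ^ n)⁻¹ := by positivity
  linarith

/-- **Theorem.** Double zeta values of the same weight have no relation of a fixed shape, and the heights of the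
relations of bounded shape tend to infinity; the last part is about the odd double zeta values of the problem. -/
theorem result :
    (∀ K L : ℕ, 1 ≤ K → ∀ S : Finset (ℕ × ℕ), (∀ p ∈ S, Shape K L p) → ∃ N : ℕ, 1 ≤ N ∧
      (∀ (x : ℕ × ℕ → ℝ) (y : ℝ), ((∃ p ∈ S, x p ≠ 0) ∨ y ≠ 0) → ∃ n0 : ℕ, ∀ n, n0 ≤ n →
        ((N : ℝ) ^ n)⁻¹ < |combination K L S x y n|) ∧
      ∀ H : ℕ, ∃ n0 : ℕ, ∀ n, n0 ≤ n → ∀ (c : ℕ × ℕ → ℤ) (d : ℤ), (∀ p ∈ S, |c p| ≤ H) → |d| ≤ H →
        ((∃ p ∈ S, c p ≠ 0) ∨ d ≠ 0) →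
        ((N : ℝ) ^ n)⁻¹ < |combination K L S (fun p => (c p : ℝ)) d n|) ∧
    (∀ D H : ℕ, ∃ m0 : ℕ, ∀ m, m0 ≤ m → ∀ c : ℕ → ℤ, (∀ a ∈ Ico 1 m, |c a| ≤ H) →
      (∀ a ∈ Ico 1 m, D < a → a < m - D → c a = 0) →
      ∑ a ∈ Ico 1 m, (c a : ℝ) * doubleZeta (2 * a + 1) (2 * m - (2 * a + 1)) = 0 → ∀ a ∈ Ico 1 m, c a = 0) :=
  ⟨fun _ _ hK S hS => parts hK S hS, odd_relations⟩

end Pool.Agent.Results.MP_9206b6_nt.AllShapes
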