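import Mathlib
import Pool.Agent.Q217.MZ.DoubleExp

/-!
# Relations of exponential height between double zeta values of the same weight, constant first arguments

Let `k = K n + L`. We consider the double zeta values `ζ(s, k - s)` of weight `k` whose first argument has one of finitely
many shapes `s = a n + b`, together with `ζ(k)`.

1. Suppose that the constant first arguments which occur (the shapes with `a = 0`) are all even, or all in `{2, 3}`, or all
in `{3, 4}`, or all equal to `5`. Then there are `B, C > 1` such that for all large `n` every integral linear combination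
with coefficients of absolute value at most `C ^ n`, not all zero, is larger than `B ^ (-n)` in absolute value.
2. In particular, for `e = 1, 2` and all `q, D` there is `C > 1` such that for every even weight `k = 2 m`, `m ≥ m0`, the
space `R_k` of the relations between the numbers `ζ(2 a + 1, k - 2 a - 1)`, `1 ≤ a < m`, contains no nonzero integral
vector with entries at most `C ^ m` which is supported on `e` (so `ζ(3, k - 3)` or `ζ(5, k - 5)`) and the `a` with
`|a - j m / q| ≤ D` for some `1 ≤ j ≤ q`.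

The starting file `AllWeights` of this folder treats first arguments `≥ n` only. The proof writes
`ζ(b, t) = ζ(b) ζ(t) - ζ(t, b) - ζ(b + t)`, and uses the measures of linear independence of `1` and the zeta values `ζ(b)`
of the starting library in the elimination argument for the word functions `Pool.Agent.TH507.WG`.
-/

set_option autoImplicit false

namespace Pool.Agent.Results.MP_9206b6_nt.ExponentialHeights

open Finset

/-- the double zeta value `ζ(s, t)`, the sum of `l ^ (-s) m ^ (-t)` over `l > m ≥ 1` -/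
noncomputable def doubleZeta (s t : ℕ) : ℝ :=
  ∑' l : ℕ, (∑ m ∈ Finset.Ico 1 (l + 1), 1 / (m : ℝ) ^ t) / ((l + 1 : ℕ) : ℝ) ^ s

/-- the zeta value `ζ(k)` -/
noncomputable def singleZeta (k : ℕ) : ℝ := ∑' l : ℕ, 1 / ((l + 1 : ℕ) : ℝ) ^ k

/-- the shape `(a, b)`: the first argument is `a n + b`, the second one `(K n + L) - (a n + b)`; a constant first argument
is at least two, a constant second argument is at least one -/
def Shape (K L : ℕ) (p : ℕ × ℕ) : Prop := p.1 ≤ K ∧ p.2 ≤ L ∧ (p.1 = 0 → 2 ≤ p.2) ∧ (p.1 = K → p.2 < L)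

/-- the combination `∑ x p ζ(a n + b, k - (a n + b)) + y ζ(k)`, the sum over the shapes `p = (a, b)` in `S`, `k = K n + L` -/
noncomputable def combination (K L : ℕ) (S : Finset (ℕ × ℕ)) (x : ℕ × ℕ → ℤ) (y : ℤ) (n : ℕ) : ℝ :=
  ∑ p ∈ S, (x p : ℝ) * doubleZeta (p.1 * n + p.2) ((K * n + L) - (p.1 * n + p.2)) + y * singleZeta (K * n + L)

/-- the constant first arguments of the shapes in `S` are all even, or all in `{2, 3}`, or all in `{3, 4}`, or all `5` -/
def ConstantsOK (S : Finset (ℕ × ℕ)) : Prop :=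
  (∀ p ∈ S, p.1 = 0 → Even p.2) ∨ (∀ p ∈ S, p.1 = 0 → p.2 = 2 ∨ p.2 = 3) ∨
    (∀ p ∈ S, p.1 = 0 → p.2 = 3 ∨ p.2 = 4) ∨ (∀ p ∈ S, p.1 = 0 → p.2 = 5)

open Pool.Agent.TH507.WD (mz hr_cons hr_nil) in
lemma mz_two (s t : ℕ) : mz [s, t] = doubleZeta s t := by
  rw [mz, doubleZeta]
  refine tsum_congr fun l => ?_
  rw [hr_cons]
  simp only [hr_nil]

open Pool.Agent.TH507.WD (mz hr_cons hr_nil) in
lemma mz_one (s : ℕ) : mz [s] = singleZeta s := by
  rw [mz, singleZeta]
  refine tsum_congr fun l => ?_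
  rw [hr_nil]

open Pool.Agent.TH507.WD (mz) in
lemma zr_mz (s : ℕ) : Pool.Agent.H337R2.zr s = mz [s] := by
  rw [mz_one, singleZeta, Pool.Agent.H337R2.zr]
  refine tsum_congr fun k => ?_
  push_cast
  rfl

/-- the zeta values at even integers are rational multiples of powers of `π ^ 2` -/
lemma even_zeta (j : ℕ) (hj : 1 ≤ j) :
    ∃ p q : ℕ, 0 < p ∧ 0 < q ∧ singleZeta (2 * j) = (Real.pi ^ 2) ^ j * p / q := by
  have h := hasSum_zeta_nat (k := j) (by omega)
  have h1 : singleZeta (2 * j) =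
      (-1 : ℝ) ^ (j + 1) * 2 ^ (2 * j - 1) * Real.pi ^ (2 * j) * bernoulli (2 * j) / (2 * j).factorial := by
    rw [singleZeta, ← h.tsum_eq]
    rw [h.summable.tsum_eq_zero_add]
    rw [Nat.cast_zero, zero_pow (by omega), div_zero, zero_add]
  set r : ℚ := (-1 : ℚ) ^ (j + 1) * 2 ^ (2 * j - 1) * bernoulli (2 * j) / (2 * j).factorial with hr
  have h2 : singleZeta (2 * j) = (Real.pi ^ 2) ^ j * (r : ℝ) := by
    rw [h1, hr, ← pow_mul]
    push_cast
    ring
  have h3 : 0 < singleZeta (2 * j) := by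
    rw [singleZeta]
    have hs : Summable fun l : ℕ => 1 / ((l + 1 : ℕ) : ℝ) ^ (2 * j) :=
      (summable_nat_add_iff 1).2 (Real.summable_one_div_nat_pow.2 (by omega))
    refine hs.tsum_pos (fun l => by positivity) 0 (by norm_num)
  have h4 : 0 < (r : ℝ) := by
    rw [h2] at h3
    exact pos_of_mul_pos_right h3 (by positivity)
  have h5 : 0 < r := by exact_mod_cast h4
  refine ⟨r.num.toNat, r.den, ?_, r.den_pos, ?_⟩
  · have := Rat.num_pos.2 h5
    omega
  · rw [h2, mul_div_assoc]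
    congr 1
    have h6 : ((r.num.toNat : ℕ) : ℝ) = (r.num : ℝ) := by
      have h7 : ((r.num.toNat : ℕ) : ℤ) = r.num := Int.toNat_of_nonneg (Rat.num_pos.2 h5).le
      exact_mod_cast h7
    rw [h6]
    exact (Rat.cast_def r)

/-- part one -/
theorem shapes {K L : ℕ} (hK : 1 ≤ K) (S : Finset (ℕ × ℕ)) (hS : ∀ p ∈ S, Shape K L p) (hc : ConstantsOK S) :
    ∃ B C : ℝ, 1 < B ∧ 1 < C ∧ ∃ n0 : ℕ, ∀ n, n0 ≤ n → ∀ (x : ℕ × ℕ → ℤ) (y : ℤ),
      ((∃ p ∈ S, x p ≠ 0) ∨ y ≠ 0) → (∀ p ∈ S, |(x p : ℝ)| ≤ C ^ n) → |(y : ℝ)| ≤ C ^ n →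
      (B ^ n)⁻¹ < |combination K L S x y n| := by
  have key : ∀ {ι : Type} [Fintype ι] (θ : ι → ℝ) (_ : Pool.Agent.Y760.PZ.LM θ) (i0 : ι) (_ : θ i0 = 1)
      (ix : ℕ × ℕ → ι) (_ : ∀ p ∈ S, p.1 = 0 → ix p ≠ i0 ∧ θ (ix p) = Pool.Agent.TH507.WD.mz [p.2]),
      ∃ B C : ℝ, 1 < B ∧ 1 < C ∧ ∃ n0 : ℕ, ∀ n, n0 ≤ n → ∀ (x : ℕ × ℕ → ℤ) (y : ℤ),
      ((∃ p ∈ S, x p ≠ 0) ∨ y ≠ 0) → (∀ p ∈ S, |(x p : ℝ)| ≤ C ^ n) → |(y : ℝ)| ≤ C ^ n →
      (B ^ n)⁻¹ < |combination K L S x y n| := by
    intro ι _ θ hθ i0 hi0 ix hix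
    obtain ⟨B, C, hB, hC, n0, h⟩ := Pool.Agent.Q217.MZ.shapes_exp hK S hS θ hθ i0 hi0 ix hix
    refine ⟨B, C, hB, hC, n0, fun n hn x y h0 hx hy => ?_⟩
    have h1 := h n hn x y h0 hx hy
    simp only [mz_two, mz_one] at h1
    exact h1
  rcases hc with hc | hc | hc | hc
  · -- even constants
    choose! P Q hP hQ hPQ using even_zeta
    have hlm := Pool.Agent.Y760.PZ.LM_pow (θ := Real.pi ^ 2) (by
      have := Pool.Agent.TH456.TM.measT_pow Pool.Agent.TH456.TM.measT_pi 2 (by norm_num)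
      push_cast
      exact this) L
    have hlm2 := Pool.Agent.Q217.MZ.LM_scale
      (η := fun i : Fin (L + 1) => if (i : ℕ) = 0 then 1 else singleZeta (2 * i)) hlm
      (fun i : Fin (L + 1) => if (i : ℕ) = 0 then 1 else P i) (fun i : Fin (L + 1) => if (i : ℕ) = 0 then 1 else Q i)
      (fun i => by
        split_ifs with h
        · norm_num
        · exact hP _ (by omega)) (fun i => by
        split_ifs with h
        · norm_num
        · exact hQ _ (by omega)) (fun i => by
        split_ifs with h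
        · rw [h]
          norm_num
        · exact hPQ _ (by omega))
    refine key _ hlm2 0 (by simp) (fun p => if h : p.2 / 2 < L + 1 then ⟨p.2 / 2, h⟩ else 0) fun p hp hp0 => ?_
    obtain ⟨h1, h2, h3, h4⟩ := hS p hp
    obtain ⟨t, ht⟩ := hc p hp hp0
    have h5 := h3 hp0
    rw [dif_pos (show p.2 / 2 < L + 1 by omega)]
    constructor
    · intro h
      have := congrArg Fin.val h
      simp only [Fin.val_zero] at this
      omega
    · simp only
      rw [if_neg (by omega), mz_one]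
      congr 1
      omega
  · refine key _ Pool.Agent.Q217.MZ.LM_zeta23 0 (by simp) (fun p => if p.2 = 2 then 1 else 2) fun p hp hp0 => ?_
    rcases hc p hp hp0 with h | h
    · rw [if_pos h, h, ← zr_mz]
      exact ⟨by decide, rfl⟩
    · rw [if_neg (by omega), h, ← zr_mz]
      exact ⟨by decide, rfl⟩
  · refine key (![1, Pool.Agent.H337R2.zr 3, Pool.Agent.H337R2.zr 4]) ?_ 0 (by simp)
      (fun p => if p.2 = 3 then 1 else 2) fun p hp hp0 => ?_
    · refine Pool.Agent.Q217.MZ.LM_scale Pool.Agent.Q217.MZ.LM_zeta34 ![1, 1, 1] ![1, 1, 90] ?_ ?_ ?_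
      · intro i; fin_cases i <;> decide
      · intro i; fin_cases i <;> decide
      · intro i
        fin_cases i
        · simp
        · simp
        · show Pool.Agent.H337R2.zr 4 = Real.pi ^ 4 * ((1 : ℕ) : ℝ) / ((90 : ℕ) : ℝ)
          rw [Pool.Agent.ZF.Mea.zr4_eq]
          push_cast
          ring
    · rcases hc p hp hp0 with h | h
      · rw [if_pos h, h, ← zr_mz]
        exact ⟨by decide, rfl⟩
      · rw [if_neg (by omega), h, ← zr_mz]
        exact ⟨by decide, rfl⟩
  · refine key _ Pool.Agent.Q217.MZ.LM_zeta5 0 (by simp) (fun _ => 1) fun p hp hp0 => ?_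
    rw [hc p hp hp0, ← zr_mz]
    exact ⟨by decide, rfl⟩

/-- the place of an index near `j m / q` -/
lemma place {q D E r n a j m : ℤ} (hq : 1 ≤ q) (hj : 1 ≤ j) (hjq : j ≤ q) (hE : E = D + q + 2) (hr : r < q)
    (hr0 : 0 ≤ r) (hD : 0 ≤ D) (hm : m = q * n + (q * E + r)) (h1 : -(q * D) ≤ q * a - j * m)
    (h2 : q * a - j * m ≤ q * D) (ham : a < m) : j * n ≤ a ∧ a < j * n + (q * E + r) := by
  have hE0 : 0 ≤ E := by omega
  have hqE : 0 ≤ q * E + r := by positivity
  constructor
  · by_contra hlt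
    push Not at hlt
    have e1 : q * (a + 1) ≤ q * (j * n) := mul_le_mul_of_nonneg_left (by omega) (by omega)
    have e2 : 1 * (q * E + r) ≤ j * (q * E + r) := mul_le_mul_of_nonneg_right hj hqE
    have e3 : q * D ≤ q * E := mul_le_mul_of_nonneg_left (by omega) (by omega)
    have e4 : q * (a + 1) = q * a + q := by ring
    have e5 : j * m = q * (j * n) + j * (q * E + r) := by rw [hm]; ring
    omega
  · rcases eq_or_lt_of_le hjq with h3 | h3
    · rw [h3]
      omega
    · by_contra hlt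
      push Not at hlt
      have e1 : q * (j * n + (q * E + r)) ≤ q * a := mul_le_mul_of_nonneg_left hlt (by omega)
      have e2 : j * (q * E + r) ≤ (q - 1) * (q * E + r) := mul_le_mul_of_nonneg_right (by omega) hqE
      have e3 : q * (D + 1) ≤ q * E := mul_le_mul_of_nonneg_left (by omega) (by omega)
      have e4 : q * (D + 1) = q * D + q := by ring
      have e5 : j * m = q * (j * n) + j * (q * E + r) := by rw [hm]; ring
      have e6 : q * (j * n + (q * E + r)) = q * (j * n) + q * (q * E + r) := by ring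
      have e7 : (q - 1) * (q * E + r) = q * (q * E + r) - (q * E + r) := by ring
      omega

/-- part two in a residue class of `m` -/
theorem residue (e : ℕ) (he : e = 1 ∨ e = 2) (q D r : ℕ) (hq : 1 ≤ q) :
    ∃ C : ℝ, 1 < C ∧ ∃ m0 : ℕ, ∀ m, m0 ≤ m → m % q = r → ∀ c : ℕ → ℤ, (∀ a ∈ Ico 1 m, |(c a : ℝ)| ≤ C ^ m) →
      (∀ a ∈ Ico 1 m, a ≠ e → (∀ j ∈ Icc 1 q, (q * D : ℤ) < |(q : ℤ) * a - j * m|) → c a = 0) →
      ∑ a ∈ Ico 1 m, (c a : ℝ) * doubleZeta (2 * a + 1) (2 * m - (2 * a + 1)) = 0 → ∀ a ∈ Ico 1 m, c a = 0 := by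
  classical
  set E : ℕ := D + q + 2 with hE
  set L : ℕ := 2 * (q * E + r) with hL
  set T : Finset (ℕ × ℕ) := Icc 1 q ×ˢ range (q * E + r) with hT
  set g : ℕ × ℕ → ℕ × ℕ := fun p => (2 * p.1, 2 * p.2 + 1) with hg
  have hgi : Function.Injective g := by
    rintro ⟨a, b⟩ ⟨a', b'⟩ h
    simp only [hg, Prod.mk.injEq] at h
    exact Prod.ext (by simp only; omega) (by simp only; omega)
  set S : Finset (ℕ × ℕ) := insert (0, 2 * e + 1) (T.image g) with hS
  have hqE : E ≤ q * E := Nat.le_mul_of_pos_left _ hq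
  have hShape : ∀ p ∈ S, Shape (2 * q) L p := by
    intro p hp
    rw [hS, mem_insert, mem_image] at hp
    rcases hp with rfl | ⟨p, hp, rfl⟩
    · refine ⟨by simp, by simp only; omega, fun _ => by simp only; omega, fun h => ?_⟩
      simp only at h
      omega
    · rw [hT, mem_product, mem_Icc, mem_range] at hp
      refine ⟨by simp only [hg]; omega, by simp only [hg]; omega, fun h => ?_, fun _ => by simp only [hg]; omega⟩
      simp only [hg] at h
      omega
  have hconst : ConstantsOK S := by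
    have h0 : ∀ p ∈ S, p.1 = 0 → p.2 = 2 * e + 1 := by
      intro p hp hp0
      rw [hS, mem_insert, mem_image] at hp
      rcases hp with rfl | ⟨p, hp, rfl⟩
      · rfl
      · exfalso
        rw [hT, mem_product, mem_Icc] at hp
        simp only [hg] at hp0
        omega
    rcases he with rfl | rfl
    · exact Or.inr (Or.inl fun p hp hp0 => Or.inr (h0 p hp hp0))
    · exact Or.inr (Or.inr (Or.inr fun p hp hp0 => h0 p hp hp0))
  obtain ⟨B, C1, hB, hC1, n0, h⟩ := shapes (K := 2 * q) (by omega) S hShape hconst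
  have hC0 : 0 < C1 := by linarith
  refine ⟨C1 ^ ((1 : ℝ) / (2 * q)), Real.one_lt_rpow hC1 (by positivity), q * (n0 + E + q * E + q + 2) + 2 * q * (E + 1),
    fun m hm hmr c hc hsupp h0 => ?_⟩
  have hr : r < q := hmr ▸ Nat.mod_lt _ (by omega)
  have hm1 : q * (m / q) + r = m := by rw [← hmr]; exact Nat.div_add_mod m q
  have hn1 : n0 + E + q * E + q + 2 ≤ m / q := by
    rw [Nat.le_div_iff_mul_le (by omega)]
    calc (n0 + E + q * E + q + 2) * q = q * (n0 + E + q * E + q + 2) := Nat.mul_comm _ _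
      _ ≤ m := by omega
  set n : ℕ := m / q - E with hn
  have hnE : n + E = m / q := by omega
  have hm2 : q * n + (q * E + r) = m := by
    rw [← hm1, ← hnE]
    ring
  have hk : 2 * q * n + L = 2 * m := by
    rw [hL, ← hm2]
    ring
  have hCm : ∀ z : ℝ, |z| ≤ (C1 ^ ((1 : ℝ) / (2 * q))) ^ m → |z| ≤ C1 ^ n := by
    intro z hz
    refine hz.trans ?_
    rw [← Real.rpow_natCast, ← Real.rpow_mul hC0.le, ← Real.rpow_natCast C1 n]
    refine Real.rpow_le_rpow_of_exponent_le hC1.le ?_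
    have hq0 : (0 : ℝ) < q := by exact_mod_cast hq
    rw [one_div, inv_mul_le_iff₀ (by positivity)]
    have h1 : m ≤ 2 * q * n := by
      have h2 : 2 * q * (E + 1) ≤ m := by omega
      have h3 : 2 * m = 2 * (q * n) + 2 * (q * E) + 2 * r := by rw [← hm2]; ring
      have h4 : 2 * q * (E + 1) = 2 * (q * E) + 2 * q := by ring
      have h5 : 2 * q * n = 2 * (q * n) := by ring
      omega
    exact_mod_cast h1
  -- the map from the shapes to the indices
  set φ : ℕ × ℕ → ℕ := fun p => p.1 * n + p.2 with hφ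
  have hqEn : q * E + r < n := by omega
  have hφ1 : ∀ p ∈ T, φ p ∈ Ico 1 m ∧ n ≤ φ p := by
    intro p hp
    rw [hT, mem_product, mem_Icc, mem_range] at hp
    have h1 : 1 * n ≤ p.1 * n := Nat.mul_le_mul_right _ hp.1.1
    have h2 : p.1 * n ≤ q * n := Nat.mul_le_mul_right _ hp.1.2
    rw [mem_Ico]
    simp only [hφ]
    omega
  have hφi : Set.InjOn φ T := by
    intro p hp p' hp' hpp
    rw [Finset.mem_coe, hT, mem_product, mem_Icc, mem_range] at hp hp'
    simp only [hφ] at hpp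
    have h1 : p.1 = p'.1 := by
      rcases lt_trichotomy p.1 p'.1 with h | h | h
      · have : (p.1 + 1) * n ≤ p'.1 * n := Nat.mul_le_mul_right _ h
        rw [Nat.add_mul] at this
        omega
      · exact h
      · have : (p'.1 + 1) * n ≤ p.1 * n := Nat.mul_le_mul_right _ h
        rw [Nat.add_mul] at this
        omega
    rw [h1] at hpp
    exact Prod.ext h1 (by omega)
  set U : Finset ℕ := insert e (T.image φ) with hU
  have heT : e ∉ T.image φ := by
    rw [mem_image]
    rintro ⟨p, hp, h⟩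
    have := (hφ1 p hp).2
    omega
  have hUsub : U ⊆ Ico 1 m := by
    intro a ha
    rw [hU, mem_insert, mem_image] at ha
    rcases ha with rfl | ⟨p, hp, rfl⟩
    · rw [mem_Ico]
      omega
    · exact (hφ1 p hp).1
  have hUc : ∀ a ∈ Ico 1 m, a ∉ U → c a = 0 := by
    intro a ha haU
    rw [hU, mem_insert, not_or] at haU
    refine hsupp a ha haU.1 fun j hj => ?_
    by_contra hcon
    push Not at hcon
    rw [mem_Ico] at ha
    rw [mem_Icc] at hj
    apply haU.2
    rw [abs_le] at hcon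
    obtain ⟨hc1, hc2⟩ := hcon
    have hmZ : (m : ℤ) = q * n + (q * E + r) := by exact_mod_cast hm2.symm
    have hqZ : (1 : ℤ) ≤ q := by exact_mod_cast hq
    have hjZ : (1 : ℤ) ≤ j := by exact_mod_cast hj.1
    have hjq : (j : ℤ) ≤ q := by exact_mod_cast hj.2
    have hEZ : (E : ℤ) = D + q + 2 := by rw [hE]; push_cast; ring
    have hrZ : (r : ℤ) < q := by exact_mod_cast hr
    have hr0 : (0 : ℤ) ≤ r := Int.natCast_nonneg _
    have hD0 : (0 : ℤ) ≤ D := Int.natCast_nonneg _
    have hE0 : (0 : ℤ) ≤ E := Int.natCast_nonneg _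
    obtain ⟨h1, h2⟩ := place hqZ hjZ hjq hEZ hrZ hr0 hD0 hmZ hc1 hc2 (by exact_mod_cast ha.2)
    rw [mem_image]
    have h1N : j * n ≤ a := by exact_mod_cast h1
    have h2N : a < j * n + (q * E + r) := by exact_mod_cast h2
    refine ⟨(j, a - j * n), ?_, ?_⟩
    · rw [hT, mem_product, mem_Icc, mem_range]
      simp only
      omega
    · simp only [hφ]
      omega
  -- the coefficients
  set x : ℕ × ℕ → ℤ := fun p => if p.1 = 0 then c e else c (p.1 / 2 * n + p.2 / 2) with hx
  have hx0 : x (0, 2 * e + 1) = c e := by simp [hx]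
  have hx1 : ∀ p ∈ T, x (g p) = c (φ p) := by
    intro p hp
    rw [hT, mem_product, mem_Icc, mem_range] at hp
    simp only [hx, hg, hφ]
    rw [if_neg (by omega)]
    congr 2
    · congr 1
      omega
    · omega
  have h0S : (0, 2 * e + 1) ∉ T.image g := by
    rw [mem_image]
    rintro ⟨p, hp, h⟩
    rw [hT, mem_product, mem_Icc] at hp
    simp only [hg, Prod.mk.injEq] at h
    omega
  have hcomb : combination (2 * q) L S x 0 n = 0 := by
    rw [combination, Int.cast_zero, zero_mul, add_zero, hk, hS, sum_insert h0S, sum_image (fun a _ b _ h => hgi h), hx0,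
      ← h0, ← sum_subset hUsub (fun a ha haU => by rw [hUc a ha haU, Int.cast_zero, zero_mul]), hU, sum_insert heT,
      sum_image hφi]
    simp only [zero_mul, zero_add]
    congr 1
    refine sum_congr rfl fun p hp => ?_
    rw [hx1 p hp]
    have e1 : (g p).1 * n + (g p).2 = 2 * φ p + 1 := by
      simp only [hg, hφ]
      ring
    rw [e1]
  intro a ha
  by_contra hca
  have hpos := h n (by omega) x 0 (by
    left
    have haU : a ∈ U := by
      by_contra haU
      exact hca (hUc a ha haU)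
    rw [hU, mem_insert, mem_image] at haU
    rcases haU with rfl | ⟨p, hp, rfl⟩
    · exact ⟨_, mem_insert_self _ _, by rw [hx0]; exact hca⟩
    · exact ⟨g p, mem_insert_of_mem (mem_image_of_mem _ hp), by rw [hx1 p hp]; exact hca⟩) (by
    intro p hp
    rw [hS, mem_insert, mem_image] at hp
    rcases hp with rfl | ⟨p, hp, rfl⟩
    · rw [hx0]
      exact hCm _ (hc e (hUsub (mem_insert_self _ _)))
    · rw [hx1 p hp]
      exact hCm _ (hc _ (hφ1 p hp).1)) (by
    rw [Int.cast_zero, abs_zero]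
    positivity)
  rw [hcomb, abs_zero] at hpos
  have : 0 < (B ^ n)⁻¹ := by
    have : 0 < B := by linarith
    positivity
  linarith

/-- part two -/
theorem relations (e : ℕ) (he : e = 1 ∨ e = 2) (q D : ℕ) (hq : 1 ≤ q) :
    ∃ C : ℝ, 1 < C ∧ ∃ m0 : ℕ, ∀ m, m0 ≤ m → ∀ c : ℕ → ℤ, (∀ a ∈ Ico 1 m, |(c a : ℝ)| ≤ C ^ m) →
      (∀ a ∈ Ico 1 m, a ≠ e → (∀ j ∈ Icc 1 q, (q * D : ℤ) < |(q : ℤ) * a - j * m|) → c a = 0) →
      ∑ a ∈ Ico 1 m, (c a : ℝ) * doubleZeta (2 * a + 1) (2 * m - (2 * a + 1)) = 0 → ∀ a ∈ Ico 1 m, c a = 0 := by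
  classical
  choose C hC m0 h using fun r => residue e he q D r hq
  have hne : (range q).Nonempty := ⟨0, mem_range.2 (by omega)⟩
  refine ⟨(range q).inf' hne C, (Finset.lt_inf'_iff hne).2 fun r _ => hC r, (range q).sup m0,
    fun m hm c hc hsupp h0 => ?_⟩
  have hr : m % q ∈ range q := mem_range.2 (Nat.mod_lt _ (by omega))
  have h1 : (range q).inf' hne C ≤ C (m % q) := Finset.inf'_le _ hr
  have h2 : 0 < (range q).inf' hne C :=
    lt_trans one_pos ((Finset.lt_inf'_iff hne).2 fun r _ => hC r)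
  exact h (m % q) m ((Finset.le_sup (f := m0) hr).trans hm) rfl c
    (fun a ha => (hc a ha).trans (pow_le_pow_left₀ h2.le h1 m)) hsupp h0

/-- **Theorem.** Integral relations of exponential height and of bounded shape between double zeta values of the same
weight, with constant first arguments; the second part is about the odd double zeta values of the problem. -/
theorem result :
    (∀ K L : ℕ, 1 ≤ K → ∀ S : Finset (ℕ × ℕ), (∀ p ∈ S, Shape K L p) → ConstantsOK S →
      ∃ B C : ℝ, 1 < B ∧ 1 < C ∧ ∃ n0 : ℕ, ∀ n, n0 ≤ n → ∀ (x : ℕ × ℕ → ℤ) (y : ℤ),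
        ((∃ p ∈ S, x p ≠ 0) ∨ y ≠ 0) → (∀ p ∈ S, |(x p : ℝ)| ≤ C ^ n) → |(y : ℝ)| ≤ C ^ n →
        (B ^ n)⁻¹ < |combination K L S x y n|) ∧
    (∀ e : ℕ, (e = 1 ∨ e = 2) → ∀ q D : ℕ, 1 ≤ q →
      ∃ C : ℝ, 1 < C ∧ ∃ m0 : ℕ, ∀ m, m0 ≤ m → ∀ c : ℕ → ℤ, (∀ a ∈ Ico 1 m, |(c a : ℝ)| ≤ C ^ m) →
        (∀ a ∈ Ico 1 m, a ≠ e → (∀ j ∈ Icc 1 q, (q * D : ℤ) < |(q : ℤ) * a - j * m|) → c a = 0) →
        ∑ a ∈ Ico 1 m, (c a : ℝ) * doubleZeta (2 * a + 1) (2 * m - (2 * a + 1)) = 0 → ∀ a ∈ Ico 1 m, c a = 0) :=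
  ⟨fun _ _ hK S hS hc => shapes hK S hS hc, fun e he q D hq => relations e he q D hq⟩

end Pool.Agent.Results.MP_9206b6_nt.ExponentialHeights
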