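import Pool.Agent.Q47.AB.Exp
import Pool.Agent.Q29.EqCo
import Pool.Agent.Q29.MzBd
import Pool.Agent.Results.MP_9206b6_nt.AllWeights

/-!
# The quotients `ζ(s, k - s) / ζ(k)`: multiples by the elements of two arbitrary dense sets

Let `β_0 = 1, β_1, …, β_l` be real algebraic numbers, linearly independent over the rationals. We consider some of the numbers
`β_i ζ(s_j, k - s_j) / ζ(k)` for any `N` different first arguments `s_1, …, s_N` with `n ≤ s_j ≤ c n` and any weight `k` larger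
than the `s_j` (for instance the odd double zeta values of even weight `k`, all `s_j` odd).
There is `D > 1` such that for all `E`, `K` and `η > 0` there is `κ > 0` such that for all large `n` and all `M` with
`D ^ n ≤ M ≤ E ^ n` every combination `x` of these numbers with integer coefficients at most `M ^ κ`, not all zero, has the
following property: for ALL dense sets `A` of integers below `M` and `B` of integers below `H`, `H ≥ M ^ η`, all real numbers
`y_a` and real polynomials `R_c` of degree less than `k ≤ K`, the numbers `b x a ^ k c + R_c(a) + y_a`, `(a, c) ∈ A × B`, are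
uniformly distributed modulo one with a power saving.

The proof uses the measure of the starting hand-in `AllWeights`, a bilinear estimate and an inverse theorem for the sums
of Weyl (`Q47/DG/EqdK`, `Q47/AB/Exp`, `H373R2/NB`).
-/

set_option autoImplicit false

namespace Pool.Agent.Results.MP_9206b6_nt.PairsFromDenseSets

open Finset Polynomial
open Pool.Agent.Results.MP_9206b6_nt.AllWeights (doubleZeta mz_two mz_one)

/-- Polynomials over two dense sets are uniformly distributed at the scale `M`, with a power saving: for all integers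
`b ≠ 0` with `|b| ≤ M ^ κ`, all degrees `1 ≤ k ≤ K`, all integers `H ≥ M ^ η`, ALL sets `A` of integers in `[0, M)` and `B` of
integers in `[0, H)` with `|A| |B| ≥ M ^ (1 - κ) H`, all real numbers `y_a`, all real polynomials `R_c` of degree less than
`k` and all `0 ≤ u ≤ v ≤ 1`, the number of the pairs `(a, c) ∈ A × B` with the fractional part of
`b x a ^ k c + R_c(a) + y_a` in `[u, v)` is `(v - u) |A| |B|`, up to `|A| |B| M ^ (-κ)`. -/
def PGood (K : ℕ) (η κ : ℝ) (M : ℕ) (x : ℝ) : Prop :=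
  ∀ b : ℤ, b ≠ 0 → |(b : ℝ)| ≤ (M : ℝ) ^ κ → ∀ k : ℕ, 1 ≤ k → k ≤ K → ∀ H : ℕ, (M : ℝ) ^ η ≤ H →
    ∀ A B : Finset ℕ, (∀ a ∈ A, a < M) → (∀ c ∈ B, c < H) → (M : ℝ) ^ (1 - κ) * H ≤ #A * #B →
    ∀ (y : ℕ → ℝ) (R : ℕ → ℝ[X]), (∀ c, (R c).degree < k) → ∀ u v : ℝ, 0 ≤ u → u ≤ v → v ≤ 1 →
      |(#{i ∈ A ×ˢ B | u ≤ Int.fract (b * x * i.1 ^ k * i.2 + (R i.2).eval (i.1 : ℝ) + y i.1) ∧
          Int.fract (b * x * i.1 ^ k * i.2 + (R i.2).eval (i.1 : ℝ) + y i.1) < v} : ℝ) -
        (v - u) * (#A * #B)| ≤ #A * #B * (M : ℝ) ^ (-κ)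

theorem pgood_iff (K : ℕ) (η κ : ℝ) (M : ℕ) (x : ℝ) : PGood K η κ M x ↔ Pool.Agent.Q47.DG.PGood K η κ M x := Iff.rfl

/-- Every combination of the coordinates of `x` with integer coefficients at most `M ^ κ`, not all zero, has the property
`PGood`. -/
def Pairs (K : ℕ) (η κ : ℝ) (M : ℕ) {s : ℕ} (x : Fin s → ℝ) : Prop :=
  ∀ l : Fin s → ℤ, l ≠ 0 → (∀ i, |(l i : ℝ)| ≤ (M : ℝ) ^ κ) → PGood K η κ M (∑ i, (l i : ℝ) * x i)

/-- the zeta value `ζ(k)` -/
noncomputable def zeta (k : ℕ) : ℝ := ∑' m : ℕ, 1 / ((m + 1 : ℕ) : ℝ) ^ k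

theorem zeta_le {k : ℕ} (hk : 2 ≤ k) : zeta k ≤ 2 := by
  have h := Pool.Agent.Q29.Eqd.mz_le_two [k] (by intro s hs; simp at hs; subst hs; simpa using hk)
  rw [mz_one] at h
  exact h

theorem zeta_ge {k : ℕ} (hk : 2 ≤ k) : 1 ≤ zeta k := by
  have h := Pool.Agent.Q29.Eqd.mz_ge 1 le_rfl [k] (by simp) (by intro s hs; simp at hs; subst hs; simpa using hk)
  rw [mz_one] at h
  unfold zeta
  refine le_trans (le_of_eq ?_) h
  simp

theorem double_le {s : ℕ} (t : ℕ) (hs : 3 ≤ s) : |doubleZeta s t| ≤ 2 := by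
  rw [← mz_two]
  exact Pool.Agent.Q29.Eqd.abs_mz_le _ (by intro a ha; simp at ha; subst ha; simpa using hs)

/-- **The quotients `ζ(s, k - s) / ζ(k)`: every small combination has equidistributed multiples over two arbitrary dense
sets.** -/
theorem result {l N s : ℕ} (β : Fin (l + 1) → ℝ) (hβ : ∀ j, IsAlgebraic ℚ (β j)) (hβ0 : β 0 = 1)
    (hβi : LinearIndependent ℚ β) (f : Fin s → Fin (l + 1) × Fin N) (hf : Function.Injective f) (hs : 1 ≤ s) (c : ℕ) :
    ∃ D : ℝ, 1 < D ∧ ∀ (E : ℝ) (K : ℕ) (η : ℝ), 0 < η → ∃ κ : ℝ, 0 < κ ∧ ∃ n0 : ℕ, ∀ n : ℕ, n0 ≤ n →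
      ∀ (k : ℕ) (σ : Fin N → ℕ), Function.Injective σ → (∀ j, n ≤ σ j ∧ σ j ≤ c * n ∧ σ j < k) →
      ∀ M : ℕ, D ^ n ≤ (M : ℝ) → (M : ℝ) ≤ E ^ n →
        Pairs K η κ M (fun i => β (f i).1 * (doubleZeta (σ (f i).2) (k - σ (f i).2) / zeta k)) := by
  classical
  obtain ⟨X, hXE⟩ : ∃ X : ℝ, X = 1 + 2 * ∑ j, |β j| := ⟨_, rfl⟩
  have hS0 : 0 ≤ ∑ j, |β j| := Finset.sum_nonneg fun j _ => abs_nonneg _
  have hX : 1 ≤ X := by rw [hXE]; linarith
  have hβX : ∀ j, |β j| * 2 ≤ X := fun j => by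
    have := Finset.single_le_sum (f := fun j => |β j|) (fun j _ => abs_nonneg _) (mem_univ j)
    rw [hXE]
    linarith
  obtain ⟨B, hB, n0, hmain⟩ := Pool.Agent.Results.MP_9206b6_nt.AllWeights.result β hβ hβi N (2 * X)
  obtain ⟨G, hG⟩ : ∃ G : ℝ, G = 2 * B ^ c := ⟨_, rfl⟩
  have hBc : 1 ≤ B ^ c := one_le_pow₀ hB.le
  have hG1 : 1 < G := by rw [hG]; linarith
  refine ⟨G ^ 2, one_lt_pow₀ hG1 (by norm_num), fun E K η hη => ?_⟩
  obtain ⟨κ, hκ, n₁, hjoint⟩ := Pool.Agent.Q47.AB.comb_exp (PGood K η)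
    (Pool.Agent.Q47.DG.Abs.engine_prod K η hη) s 2 G X E (by norm_num) hG1 hX
  refine ⟨κ, hκ, n0 + n₁ + 3, fun n hn k σ hσ hσI M hDM hME => ?_⟩
  intro lc hlc0 hlc
  have hnk : n < k := by
    obtain ⟨h1, -, h3⟩ := hσI (f ⟨0, hs⟩).2
    omega
  have hz1 := zeta_ge (k := k) (by omega)
  have hz2 := zeta_le (k := k) (by omega)
  have hz0 : 0 < zeta k := by linarith
  refine hjoint n (by omega) _ (fun i => ?_) (fun w a hw hwA haA => ?_) M hDM hME lc hlc0 hlc
  · obtain ⟨h1, h2, h3⟩ := hσI (f i).2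
    rw [abs_mul, abs_div, abs_of_pos hz0]
    have h5 : |doubleZeta (σ (f i).2) (k - σ (f i).2)| ≤ 2 := double_le _ (by omega)
    calc |β (f i).1| * (|doubleZeta (σ (f i).2) (k - σ (f i).2)| / zeta k) ≤ |β (f i).1| * 2 := by
          refine mul_le_mul_of_nonneg_left ?_ (abs_nonneg _)
          exact (div_le_self (abs_nonneg _) hz1).trans h5
      _ ≤ X := hβX _
      _ ≤ X ^ n := le_self_pow₀ hX (by omega)
  · obtain ⟨g, hgE⟩ : ∃ g : Fin (l + 1) → ℕ → ℝ, g = fun j u => β j * (if u = 0 then 1 else doubleZeta u (k - u) / zeta k) :=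
      ⟨_, rfl⟩
    have hg : ∀ i, g (f i).1 (σ (f i).2) = β (f i).1 * (doubleZeta (σ (f i).2) (k - σ (f i).2) / zeta k) := by
      intro i
      have h1 := (hσI (f i).2).1
      rw [hgE]
      simp only
      rw [if_neg (by omega)]
    obtain ⟨co, hco1, ⟨i, hi⟩, hco2⟩ := Pool.Agent.Q29.Eqd.forms ((0, 0) : Fin (l + 1) × ℕ)
      (fun i => ((f i).1, σ (f i).2)) (fun i i' h => by
        have h1 := Prod.ext_iff.1 h
        exact hf (Prod.ext h1.1 (hσ h1.2))) (fun i h => by
        have h1 := (hσI (f i).2).1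
        have h2 : σ (f i).2 = 0 := (Prod.ext_iff.1 h).2
        omega)
      (insert 0 (univ.image σ)) (mem_insert_self _ _)
      (fun i => mem_insert_of_mem (mem_image_of_mem σ (mem_univ _))) w a hw ((2 * X) ^ n)
      (fun i => (hwA i).trans (pow_le_pow_left₀ (by norm_num) (by linarith) n)) haA g (by
        show g 0 0 = 1
        rw [hgE]
        simp [hβ0])
    obtain ⟨F, hF⟩ : ∃ F : Finset ℕ, F = (univ.image σ).filter fun u => co u ≠ 0 := ⟨_, rfl⟩
    have hFne : F.Nonempty := ⟨σ (f i).2, by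
      rw [hF, mem_filter]
      exact ⟨mem_image_of_mem σ (mem_univ _), fun h0 => hi (congrFun h0 _)⟩⟩
    obtain ⟨n', hn'⟩ : ∃ n', n' = F.min' hFne := ⟨_, rfl⟩
    have hn'F : n' ∈ F := by rw [hn']; exact F.min'_mem hFne
    have hmem : ∀ u ∈ F, ∃ j, σ j = u ∧ co u ≠ 0 := by
      intro u hu
      rw [hF, mem_filter, mem_image] at hu
      obtain ⟨⟨j, -, hj⟩, h⟩ := hu
      exact ⟨j, hj, h⟩
    obtain ⟨j', hj', hcn'⟩ := hmem n' hn'F
    obtain ⟨hn'1, hn'2, hn'3⟩ := hσI j'
    rw [hj'] at hn'1 hn'2 hn'3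
    have hpow : (2 * X) ^ n ≤ (2 * X) ^ n' := pow_le_pow_right₀ (by linarith) hn'1
    have h1 := hmain n' k (by omega) hn'3 F (by
        rw [hF]
        refine (Finset.card_filter_le _ _).trans ?_
        have := Finset.card_image_le (s := (univ : Finset (Fin N))) (f := σ)
        rwa [Finset.card_univ, Fintype.card_fin] at this) hn'F
      (fun u hu => by
        obtain ⟨j, hj, -⟩ := hmem u hu
        refine ⟨?_, by rw [← hj]; exact (hσI j).2.2⟩
        rw [hn']
        exact F.min'_le u hu)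
      co (co 0) hcn' (fun u _ j => (hco1 u j).trans hpow) (fun j => (hco1 0 j).trans hpow)
    have h3 : ∑ u ∈ F, (∑ j, β j * (co u j : ℝ)) * doubleZeta u (k - u) +
        (∑ j, β j * (co 0 j : ℝ)) * ∑' m : ℕ, 1 / ((m + 1 : ℕ) : ℝ) ^ k =
        zeta k * (∑ i, (w i : ℝ) * (β (f i).1 * (doubleZeta (σ (f i).2) (k - σ (f i).2) / zeta k)) - a) := by
      have h0 : (0 : ℕ) ∉ univ.image σ := by
        intro h
        obtain ⟨j, -, hj⟩ := mem_image.1 h
        have := (hσI j).1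
        omega
      have h4 : ∑ i, (w i : ℝ) * (β (f i).1 * (doubleZeta (σ (f i).2) (k - σ (f i).2) / zeta k)) - a =
          ∑ u ∈ insert 0 (univ.image σ), ∑ j, (co u j : ℝ) * g j u := by
        rw [hco2]
        congr 1
        exact Finset.sum_congr rfl fun i _ => by rw [hg]
      rw [h4, Finset.sum_insert h0, mul_add, add_comm]
      congr 1
      · rw [Finset.mul_sum, Finset.sum_mul]
        refine Finset.sum_congr rfl fun j _ => ?_
        rw [hgE]
        simp only [if_true, mul_one]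
        unfold zeta
        ring
      · rw [hF, Finset.sum_filter, Finset.mul_sum]
        refine Finset.sum_congr rfl fun u hu => ?_
        have hu0 : u ≠ 0 := fun h => h0 (h ▸ hu)
        split_ifs with h5
        · rw [Finset.sum_mul, Finset.mul_sum]
          refine Finset.sum_congr rfl fun j _ => ?_
          rw [hgE]
          simp only [if_neg hu0]
          field_simp
        · have h6 : co u = 0 := by
            by_contra h7
            exact h5 h7
          rw [h6]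
          simp
    rw [h3, abs_mul, abs_of_pos hz0] at h1
    have h4 : (B ^ n')⁻¹ < 2 * |∑ i, (w i : ℝ) * (β (f i).1 * (doubleZeta (σ (f i).2) (k - σ (f i).2) / zeta k)) - a| :=
      lt_of_lt_of_le h1 (mul_le_mul_of_nonneg_right hz2 (abs_nonneg _))
    have h5 : (G ^ n)⁻¹ ≤ (B ^ n')⁻¹ / 2 := by
      rw [hG, mul_pow, ← pow_mul, mul_inv, mul_comm, div_eq_mul_inv]
      refine mul_le_mul ?_ (inv_anti₀ (by norm_num) (le_self_pow₀ (by norm_num) (by omega))) (by positivity) (by positivity)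
      exact inv_anti₀ (by positivity) (pow_le_pow_right₀ hB.le hn'2)
    linarith

end Pool.Agent.Results.MP_9206b6_nt.PairsFromDenseSets
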